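import Pool.Agent.GHCQ.Kind
import Pool.Agent.GHCThree.Kinds5

/-!
# The kinds of conjugate subspaces, and the theorem in terms of the simple abelian subvarieties
-/

set_option autoImplicit false
set_option maxSynthPendingDepth 3
set_option linter.unusedSectionVars false

universe u

namespace Pool.Agent.GHCQ

open Module Pool.Agent.OddRank Pool.Agent.TateOdd Pool.Agent.GHCAll Pool.Agent.LargeDom
open Pool.Agent.GHC Pool.Agent.GHCFull Pool.Agent.GHCMix Pool.Agent.HodgeLoc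
open Pool.Agent.TypeIV.MX (KSp KSl)
open Pool.Agent.Twist (KTr NoTwist full_of_kinds' ktr_of_line)
open Pool.Agent.GHCThree (ktr_of_iso ksp_of_iso ColCond3 ghc_of_full3)

variable {V : Type u} [NormedAddCommGroup V] [NormedSpace ℂ V] {Λ : Submodule ℤ V}
  [DiscreteTopology Λ] [IsZLattice ℝ Λ] {ι : Type} [Fintype ι] [DecidableEq ι]
  [FiniteDimensional ℂ V] (b : Basis ι ℤ Λ) {E : V →L[ℝ] V →L[ℝ] ℝ}

/-- The conjugation as a map to the conjugate subspace. -/
def toCj (σ : ℂ ≃+* ℂ) (W : Submodule ℂ (ι → ℂ)) (w : W) : cjS σ W :=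
  ⟨conjV σ w, conj_mem' w.2⟩

omit [Fintype ι] [DecidableEq ι] in
theorem toCj_add (σ : ℂ ≃+* ℂ) (W : Submodule ℂ (ι → ℂ)) (w w' : W) :
    toCj σ W (w + w') = toCj σ W w + toCj σ W w' :=
  Subtype.ext (conj_add σ (w : ι → ℂ) (w' : ι → ℂ))

omit [Fintype ι] [DecidableEq ι] in
theorem toCj_smul (σ : ℂ ≃+* ℂ) (W : Submodule ℂ (ι → ℂ)) (a : ℂ) (w : W) :
    toCj σ W (a • w) = σ a • toCj σ W w :=
  Subtype.ext (conj_smul σ a (w : ι → ℂ))

/-- The inverse. -/
def ofCj (σ : ℂ ≃+* ℂ) (W : Submodule ℂ (ι → ℂ)) (w : cjS σ W) : W :=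
  ⟨conjV σ.symm w, w.2⟩

omit [Fintype ι] [DecidableEq ι] in
theorem ofCj_add (σ : ℂ ≃+* ℂ) (W : Submodule ℂ (ι → ℂ)) (w w' : cjS σ W) :
    ofCj σ W (w + w') = ofCj σ W w + ofCj σ W w' :=
  Subtype.ext (conj_add σ.symm (w : ι → ℂ) (w' : ι → ℂ))

omit [Fintype ι] [DecidableEq ι] in
theorem ofCj_smul (σ : ℂ ≃+* ℂ) (W : Submodule ℂ (ι → ℂ)) (a : ℂ) (w : cjS σ W) :
    ofCj σ W (a • w) = σ.symm a • ofCj σ W w :=
  Subtype.ext (conj_smul σ.symm a (w : ι → ℂ))

omit [Fintype ι] [DecidableEq ι] in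
theorem to_of (σ : ℂ ≃+* ℂ) (W : Submodule ℂ (ι → ℂ)) (w : cjS σ W) :
    toCj σ W (ofCj σ W w) = w :=
  Subtype.ext (conj_symm' σ (w : ι → ℂ))

omit [Fintype ι] [DecidableEq ι] in
theorem of_to (σ : ℂ ≃+* ℂ) (W : Submodule ℂ (ι → ℂ)) (w : W) :
    ofCj σ W (toCj σ W w) = w :=
  Subtype.ext (conj_symm σ (w : ι → ℂ))

omit [DecidableEq ι] in
theorem trace_cj (σ : ℂ ≃+* ℂ) {W : Submodule ℂ (ι → ℂ)} {Z : Module.End ℂ W}
    {Z' : Module.End ℂ (cjS σ W)} (h : ∀ w, Z' (toCj σ W w) = toCj σ W (Z w)) :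
    LinearMap.trace ℂ _ Z' = σ (LinearMap.trace ℂ _ Z) := by
  classical
  let v := finBasis ℂ W
  have hli : LinearIndependent ℂ fun i => toCj σ W (v i) := by
    rw [Fintype.linearIndependent_iff]
    intro c hc i
    have h1 : ∀ s : Finset (Fin (finrank ℂ W)), ofCj σ W (∑ i ∈ s, c i • toCj σ W (v i)) =
        ∑ i ∈ s, σ.symm (c i) • v i := by
      intro s
      induction s using Finset.induction_on with
      | empty =>
        rw [Finset.sum_empty, Finset.sum_empty]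
        exact Subtype.ext (conj_zero σ.symm)
      | insert a s ha ih =>
        rw [Finset.sum_insert ha, Finset.sum_insert ha, ofCj_add, ofCj_smul, of_to, ih]
    have h2 := h1 Finset.univ
    rw [hc, show ofCj σ W 0 = 0 from Subtype.ext (conj_zero σ.symm)] at h2
    have h3 := Fintype.linearIndependent_iff.1 v.linearIndependent (fun i => σ.symm (c i)) h2.symm i
    simpa using h3
  let v' : Basis (Fin (finrank ℂ W)) ℂ (cjS σ W) :=
    basisOfLinearIndependentOfCardEqFinrank' _ hli (by rw [Fintype.card_fin, finrank_cjS])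
  have hv' : ∀ i, v' i = toCj σ W (v i) := fun i => by
    rw [coe_basisOfLinearIndependentOfCardEqFinrank']
  have hrep : ∀ w i, v'.repr (toCj σ W w) i = σ (v.repr w i) := by
    intro w i
    have h1 : ∀ s : Finset (Fin (finrank ℂ W)), toCj σ W (∑ i ∈ s, v.repr w i • v i) =
        ∑ i ∈ s, σ (v.repr w i) • v' i := by
      intro s
      induction s using Finset.induction_on with
      | empty =>
        rw [Finset.sum_empty, Finset.sum_empty]
        exact Subtype.ext (conj_zero σ)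
      | insert a s ha ih =>
        rw [Finset.sum_insert ha, Finset.sum_insert ha, toCj_add, toCj_smul, hv', ih]
    have h2 := h1 Finset.univ
    rw [v.sum_repr] at h2
    rw [h2, map_sum, Finsupp.finsetSum_apply, Finset.sum_eq_single i]
    · rw [map_smul, Basis.repr_self, Finsupp.smul_apply, Finsupp.single_eq_same, smul_eq_mul,
        mul_one]
    · intro j _ hj
      rw [map_smul, Basis.repr_self, Finsupp.smul_apply, Finsupp.single_eq_of_ne (Ne.symm hj),
        smul_zero]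
    · exact fun h => absurd (Finset.mem_univ i) h
  rw [LinearMap.trace_eq_matrix_trace ℂ v, LinearMap.trace_eq_matrix_trace ℂ v', Matrix.trace,
    Matrix.trace, map_sum]
  refine Finset.sum_congr rfl fun i _ => ?_
  rw [Matrix.diag_apply, Matrix.diag_apply, LinearMap.toMatrix_apply, LinearMap.toMatrix_apply,
    hv', h, hrep]

theorem ktr_of_cjS (σ : ℂ ≃+* ℂ) {W : Submodule ℂ (ι → ℂ)}
    (h : KTr (hodgeConj b) (cjS σ W)) : KTr (hodgeConj b) W := by
  intro Z hZ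
  let Z' : Module.End ℂ (cjS σ W) :=
    { toFun := fun w => toCj σ W (Z (ofCj σ W w))
      map_add' := fun x y => by rw [ofCj_add, map_add, toCj_add]
      map_smul' := fun a x => by
        rw [ofCj_smul, map_smul, toCj_smul, RingEquiv.apply_symm_apply]
        rfl }
  have hZ' : ∀ w, Z' w = toCj σ W (Z (ofCj σ W w)) := fun w => rfl
  obtain ⟨x, hx, hxZ⟩ := h Z' (by
    rw [trace_cj σ (Z := Z) (fun w => by rw [hZ', of_to]), hZ, map_zero])
  refine ⟨cjE σ.symm x, cjE_lieSpan b σ.symm hx, fun w => ?_⟩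
  have h1 := hxZ (toCj σ W w)
  rw [hZ', of_to] at h1
  have h2 : conjV σ (Z w : ι → ℂ) = x (conjV σ (w : ι → ℂ)) := h1
  rw [cjE_apply]
  change _ = conjV σ.symm (x (conjV σ (w : ι → ℂ)))
  rw [← h2, conj_symm]

theorem ksp_of_cjS (σ : ℂ ≃+* ℂ) {W : Submodule ℂ (ι → ℂ)}
    (h : KSp (hodgeConj b) (cjS σ W)) : KSp (hodgeConj b) W := by
  obtain ⟨φ, h0, h1, h2, h3⟩ := h
  let φ' : W →ₗ[ℂ] W →ₗ[ℂ] ℂ := LinearMap.mk₂ ℂ
    (fun x y => σ.symm (φ (toCj σ W x) (toCj σ W y)))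
    (fun x y z => by rw [toCj_add, map_add, LinearMap.add_apply, map_add])
    (fun c x y => by rw [toCj_smul, map_smul, LinearMap.smul_apply, smul_eq_mul, map_mul,
      RingEquiv.symm_apply_apply, smul_eq_mul])
    (fun x y z => by rw [toCj_add, map_add, map_add])
    (fun c x y => by rw [toCj_smul, map_smul, smul_eq_mul, map_mul,
      RingEquiv.symm_apply_apply, smul_eq_mul])
  have hφ' : ∀ x y, φ' x y = σ.symm (φ (toCj σ W x) (toCj σ W y)) := fun x y => rfl
  refine ⟨φ', fun x => ?_, fun x hxy => ?_, fun e he x x₂ y y₂ hx hy => ?_, fun x y => ?_⟩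
  · rw [hφ', h0, map_zero]
  · have h4 : toCj σ W x = 0 := h1 _ fun y => by
      have h5 := hxy (ofCj σ W y)
      rw [hφ', EmbeddingLike.map_eq_zero_iff, to_of] at h5
      exact h5
    rw [← of_to σ W x, h4]
    exact Subtype.ext (conj_zero σ.symm)
  · rw [hφ', hφ', hφ', ← map_add]
    congr 1
    refine h2 _ (cjE_hodgeConj b σ he) _ _ _ _ ?_ ?_
    · change conjV σ (x₂ : ι → ℂ) = cjE σ e (conjV σ (x : ι → ℂ))
      rw [cjE_apply, conj_symm, hx]
    · change conjV σ (y₂ : ι → ℂ) = cjE σ e (conjV σ (y : ι → ℂ))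
      rw [cjE_apply, conj_symm, hy]
  · obtain ⟨z, hz, hzm⟩ := h3 (toCj σ W x) (toCj σ W y)
    refine ⟨cjE σ.symm z, cjE_lieSpan b σ.symm hz, fun w => ?_⟩
    have h4 := hzm (toCj σ W w)
    have h5 : mm φ (toCj σ W x) (toCj σ W y) (toCj σ W w) = toCj σ W (mm φ' x y w) := by
      rw [mm_apply, mm_apply, toCj_add, toCj_smul, toCj_smul, hφ', hφ',
        RingEquiv.apply_symm_apply, RingEquiv.apply_symm_apply]
    rw [h5] at h4
    have h6 : conjV σ (mm φ' x y w : ι → ℂ) = z (conjV σ (w : ι → ℂ)) := h4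
    rw [cjE_apply]
    change _ = conjV σ.symm (z (conjV σ (w : ι → ℂ)))
    rw [← h6, conj_symm]

/-- The kinds in terms of one irreducible subspace of each simple abelian subvariety. -/
theorem kinds6 (hE : IsRiemannForm Λ E)
    (h : ∀ Y, IsSimple b Y → (∃ W ≤ Y, Irreducible (hodgeConj b) W ∧ 1 < finrank ℂ W) →
      ∃ U ≤ Y, Irreducible (hodgeConj b) U ∧
        (KSp (hodgeConj b) U ∨ KTr (hodgeConj b) U)) :
    ∀ W, Irreducible (hodgeConj b) W → KSp (hodgeConj b) W ∨ KTr (hodgeConj b) W := by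
  intro W hW
  by_cases hW1 : finrank ℂ W = 1
  · exact Or.inr (ktr_of_line hW1)
  have h0 : finrank ℂ W ≠ 0 := fun h => hW.2.1 (Submodule.finrank_eq_zero.1 h)
  obtain ⟨Y, hY, hYW⟩ := exists_simple_iso b hE hW
  obtain ⟨U, hUY, hU⟩ := exists_irr hY.1.stable hY.2.1
  obtain ⟨σ, φ, hφ, hφb⟩ := hYW U hUY hU
  obtain ⟨U', hUY', hU', hk⟩ := h Y hY ⟨U, hUY, hU, by
    rw [← (LinearEquiv.ofBijective φ hφb).finrank_eq, finrank_cjS]
    omega⟩
  obtain ⟨σ', hiso⟩ := hYW U' hUY' hU'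
  have hWσ := irr_cjS b σ' hW
  rcases hk with hk | hk
  · exact Or.inl (ksp_of_cjS b σ' (ksp_of_iso (semisimple b hE) hWσ.1 hiso hk))
  · exact Or.inr (ktr_of_cjS b σ' (ktr_of_iso (semisimple b hE) hWσ.1 hiso hk))

theorem ghc_of_kinds6 (hE : IsRiemannForm Λ E) (j k : ℕ) (htw : NoTwist (hodgeConj b))
    (h : ∀ Y, IsSimple b Y → (∃ W ≤ Y, Irreducible (hodgeConj b) W ∧ 1 < finrank ℂ W) →
      ∃ U ≤ Y, Irreducible (hodgeConj b) U ∧
        (KSp (hodgeConj b) U ∨ KTr (hodgeConj b) U))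
    (hB : ColCond3 (hodgeConj b) j k) : GeneralizedHodge Λ j k :=
  ghc_of_full3 b hE j k (full_of_kinds' (Pool.Agent.GHCFull.psi_nd b hE) (hodgeConj_idem b)
    (psi_conj b hE) (semisimple b hE) (kinds6 b hE h) htw) hB

end Pool.Agent.GHCQ
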