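import Pool.Agent.FQA.KindN
import Pool.Agent.FQA.TouchF
import Pool.Agent.FQA.Iface
import Pool.Agent.NumRank.Final

/-!
# An irreducible Lie algebra which is generated, as an ideal, by one idempotent

`g` is an irreducible Lie algebra of operators, `e` a nontrivial idempotent of `g` such that `g` is
the sum of the scalars and of the ideal generated by `2 e - 1`. Then there is a Cartan subalgebra
`t` which contains `e` and is spanned by idempotents (`exists_td`), and the roots of its lattice are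
connected (`cn_of_hall`).
-/

set_option autoImplicit false
set_option linter.unusedSectionVars false

namespace Pool.Agent.GHCQ

open Module Pool.Agent.CoprimeSig Pool.Agent.Mod4 Pool.Agent.NumRank Pool.Agent.FQA
open Pool.Agent.FQA.TD (sP Out mem_Lv val01 dot_ne dot_eq)
open Pool.Agent.PrimePow (one_mem schur_irr)
open Pool.Agent.PrimePow.CC (Rf Rt Lat)

variable {K V : Type*} [Field K] [CharZero K] [IsAlgClosed K] [AddCommGroup V] [Module K V]
  [FiniteDimensional K V] {g t : Submodule K (End K V)}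

/-- There is a Cartan subalgebra which contains the idempotent and is spanned by idempotents. -/
theorem exists_td [Nontrivial V] (hlie : ∀ x ∈ g, ∀ y ∈ g, x * y - y * x ∈ g)
    (hirr : ∀ U : Submodule K V, (∀ a ∈ g, ∀ w ∈ U, a w ∈ U) → U = ⊥ ∨ U = ⊤) {e : End K V}
    (he : e ∈ g) (hee : e * e = e) (h0 : e ≠ 0)
    (hall : ∀ x ∈ g, ∃ a ∈ idl g {e}, ∃ c : K, x = a + c • 1) :
    ∃ t : Submodule K (End K V), TD g t ∧ e ∈ t := by
  have hndt := OddRank.trace_nondeg g hlie hirr
  have hsc := schur_irr hirr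
  have htre : LinearMap.trace K V e ≠ 0 := by
    rw [PrimePow.trace_idem hee, Nat.cast_ne_zero]
    intro h
    apply h0
    rwa [Submodule.finrank_eq_zero, LinearMap.range_eq_bot] at h
  have hone := one_mem hlie hndt hsc he htre
  obtain ⟨t, C, hSt⟩ := exists_cartan_set hlie hndt hsc hone (S := {e})
    (fun ε hε => by
      rw [Set.mem_singleton_iff.1 hε]
      exact ⟨he, hee⟩)
    (fun ε hε ε' hε' => by rw [Set.mem_singleton_iff.1 hε, Set.mem_singleton_iff.1 hε'])
  have het : e ∈ t := hSt e rfl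
  have hone' : (1 : End K V) ∈ t := C.cent 1 hone fun y _ => by rw [mul_one, one_mul]
  have hgood : ∀ (α : End K V → K) (x : End K V), IsRoot g t α x → x ≠ 0 →
      (∃ τ ∈ t, α τ ≠ 0) → ∃ ε ∈ t, ε * ε = ε ∧ α ε ≠ 0 := fun α x hx hx0 hα =>
    good C (S := {e}) (fun ε hε => by
      rw [Set.mem_singleton_iff.1 hε]
      exact ⟨het, hee⟩) hall hx hx0 hα
  have hopp : ∀ (α : End K V → K) (x : End K V), IsRoot g t α x → x ≠ 0 →
      (∃ τ ∈ t, α τ ≠ 0) → ∃ y, Opp g t α x y := by
    intro α x hx hx0 hα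
    obtain ⟨ε, hε, hεε, hαε⟩ := hgood α x hx hx0 hα
    exact (exists_opp C hx hx0 hε hεε hαε).2
  refine ⟨t, TD.of C hone' hirr ?_, het⟩
  intro τ hτ
  have h1 := span_coroots C hone' hirr hopp hτ
  refine (Submodule.span_le.2 ?_) h1
  rintro z (hz | ⟨α, x, y, P, hx0, rfl⟩)
  · rw [Set.mem_singleton_iff.1 hz]
    exact Submodule.subset_span ⟨hone', one_mul 1⟩
  · have h2 : α (x * y - y * x) ≠ 0 := by
      rw [opp_two P hx0]
      exact two_ne_zero
    obtain ⟨ε, hε, hεε, hαε⟩ := hgood α x P.rx hx0 ⟨_, P.mem, h2⟩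
    obtain ⟨h3, h4⟩ := conj_idem P hε hεε
    have h5 : x * y - y * x = (α ε)⁻¹ • (ε - (ε - α ε • (x * y - y * x))) := by
      rw [sub_sub_cancel, smul_smul, inv_mul_cancel₀ hαε, one_smul]
    rw [h5]
    exact Submodule.smul_mem _ _ (Submodule.sub_mem _ (Submodule.subset_span ⟨hε, hεε⟩)
      (Submodule.subset_span ⟨h3, h4⟩))

section

variable (T : TD g t) [Nontrivial V] {I : Type} [Fintype I] (v : Basis I K V)
  (hv : ∀ x ∈ t, ∀ i, ∃ c : K, x (v i) = c • v i)
include T hv

/-- The elements of the ideal and the scalars commute with the root vectors outside `P`. -/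
theorem all_ar {P : (I → ℚ) → Prop} (hid : ∀ x ∈ g, ∀ b ∈ sP g t v P, x * b - b * x ∈ sP g t v P)
    {e : End K V} (heP : e ∈ sP g t v P)
    (hall : ∀ x ∈ g, ∃ a ∈ idl g {e}, ∃ c : K, x = a + c • 1) {h : I → ℚ}
    (H : AR g t g v h) : P h := by
  by_contra hPh
  obtain ⟨α, x, y, R, hx0, -, hh⟩ := H
  have hle : idl g {e} ≤ sP g t v P := by
    refine sInf_le ⟨fun ε hε => ?_, hid⟩
    rw [Set.mem_singleton_iff.1 hε]
    have h1 : (1 : End K V) ∈ sP g t v P := ⟨T.hone, fun z _ => by rw [one_mul, mul_one]⟩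
    exact (sP g t v P).sub_mem ((sP g t v P).smul_mem _ heP) h1
  obtain ⟨a, ha, c, hy⟩ := hall y R.ry.mem
  have h2 : a * x = x * a := (hle ha).2 x ⟨α, y, h, R, hx0, hh, hPh⟩
  have h3 : x * y - y * x = 0 := by
    rw [hy, mul_add, add_mul, h2, mul_smul_comm, smul_mul_assoc, mul_one, one_mul, sub_self]
  have h4 := opp_two R hx0
  rw [h3] at h4
  have h5 := R.rx.root 0 t.zero_mem
  rw [zero_mul, mul_zero, sub_zero] at h5
  have h6 : α 0 = 0 := (smul_eq_zero.1 h5.symm).resolve_right hx0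
  rw [h6] at h4
  exact two_ne_zero h4.symm

/-- The roots of the lattice are connected. -/
theorem cn_of_hall {e : End K V} (he : e ∈ t) (hee : e * e = e) (h0 : e ≠ 0) (h1 : e ≠ 1)
    (hall : ∀ x ∈ g, ∃ a ∈ idl g {e}, ∃ c : K, x = a + c • 1) :
    ∀ h h', Rt (Lv t v) h → Rt (Lv t v) h' → Cn (Lv t v) h h' := by
  have hL := T.lat v hv
  obtain ⟨f, hf⟩ : ∃ f : I → ℚ, ∀ i, e (v i) = (f i : K) • v i := by
    have h2 : ∀ i, ∃ q : ℚ, e (v i) = (q : K) • v i := by
      intro i
      obtain ⟨c, hc⟩ := hv e he i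
      have h3 := LinearMap.congr_fun hee (v i)
      rw [Module.End.mul_apply, hc, map_smul, hc, smul_smul] at h3
      have h4 : c * c = c := smul_left_injective K (v.ne_zero i) h3
      have h5 : c * (c - 1) = 0 := by linear_combination h4
      rcases mul_eq_zero.1 h5 with h6 | h6
      · exact ⟨0, by rw [hc, h6, Rat.cast_zero]⟩
      · exact ⟨1, by rw [hc, sub_eq_zero.1 h6, Rat.cast_one]⟩
    choose f hf using h2
    exact ⟨f, hf⟩
  have hfL := mem_Lv v he hee hf
  obtain ⟨k, Hk, hk0⟩ := T.touch_ex v hv he hee h0 h1 hf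
  rw [dotProduct_comm] at hk0
  -- all roots are connected with `k`
  have key : ∀ h, Rt (Lv t v) h → Cn (Lv t v) k h := by
    intro h H
    obtain ⟨-, τ, hτ, hτh⟩ := Rt_mem H
    obtain ⟨m, Hm, hm0⟩ := T.exists_ar v hv hτ hτh H (Rt_sq_ne H)
    have h2 : Cn (Lv t v) k m := by
      refine all_ar T v hv (P := Cn (Lv t v) k) (T.sP_ideal v hv (Cn.stb k)) ?_ hall Hm
      refine ⟨T.le he, ?_⟩
      rintro z ⟨α, y, l, R, hz0, hl, hPl⟩
      have Hl : Rt (Lv t v) l := T.ar_rt v hv (r := g) ⟨α, z, y, R, hz0, R.rx.mem, hl⟩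
      have h3 : α e = 0 := by
        by_contra h4
        exact hPl (one_comp hL hfL (val01 v hee hf) (Cn (Lv t v) k) (Cn.stb k) Hk
          Relation.ReflTransGen.refl hk0 Hl ((dot_ne v R hz0 he hl hf).1 h4))
      have h4 := R.rx.root e he
      rw [h3, zero_smul, sub_eq_zero] at h4
      exact h4
    exact h2.tail ⟨H, hm0⟩
  exact fun h h' H H' => ((key h H).symm Hk).trans (key h' H')

end

end Pool.Agent.GHCQ
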