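import Pool.Agent.GHCQ.Conj

/-!
# The theorem without orthogonal subspaces
-/

set_option autoImplicit false
set_option maxSynthPendingDepth 3
set_option linter.unusedSectionVars false

universe u

namespace Pool.Agent.GHCQ

open Module Pool.Agent.OddRank Pool.Agent.TateOdd Pool.Agent.GHCAll Pool.Agent.LargeDom
open Pool.Agent.GHC Pool.Agent.GHCFull Pool.Agent.GHCMix Pool.Agent.HodgeLoc
open Pool.Agent.TypeIV.MX (KSp KSl)
open Pool.Agent.Twist (KTr NoTwist full_of_kinds' ktr_of_line form_of_ktr form_of_ksp)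
open Pool.Agent.GHCThree (ktr_of_iso ksp_of_iso ColCond3 ghc_of_full3 Orth defect)

section

variable {H : Type} [AddCommGroup H] [Module ℂ H] [FiniteDimensional ℂ H]
  {G : Set (Module.End ℂ H)} {W : Submodule ℂ H}

/-- Invariant forms on an irreducible subspace are proportional. -/
theorem form_unique (hW : Irreducible G W) {φ φ' : H →ₗ[ℂ] H →ₗ[ℂ] ℂ} (h : FormOn G W φ)
    (h' : Inv2 G W W φ') : ∃ c : ℂ, ∀ x ∈ W, ∀ y ∈ W, φ' x y = c * φ x y := by
  have hnt : Nontrivial W := by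
    obtain ⟨w, hw, hw0⟩ := (Submodule.ne_bot_iff _).1 hW.2.1
    exact ⟨⟨⟨w, hw⟩, 0, fun h => hw0 (congrArg Subtype.val h)⟩⟩
  let A : W →ₗ[ℂ] Module.Dual ℂ W := φ.compl₁₂ W.subtype W.subtype
  let B : W →ₗ[ℂ] Module.Dual ℂ W := φ'.compl₁₂ W.subtype W.subtype
  have hA : Function.Injective A := by
    rw [injective_iff_map_eq_zero]
    intro x hx
    refine Subtype.ext (h.2.1 x x.2 fun y hy => ?_)
    exact LinearMap.congr_fun hx ⟨y, hy⟩
  let A' : W ≃ₗ[ℂ] Module.Dual ℂ W := LinearEquiv.ofInjectiveOfFinrankEq A hA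
    (Subspace.dual_finrank_eq).symm
  obtain ⟨c, hc⟩ := Module.End.exists_eigenvalue ((A'.symm : Module.Dual ℂ W →ₗ[ℂ] W) ∘ₗ B)
  obtain ⟨x, hx, hx0⟩ := hc.exists_hasEigenvector
  refine ⟨c, ?_⟩
  rw [Module.End.mem_eigenspace_iff] at hx
  have h1 : B x = c • A x := by
    have h2 : A'.symm (B x) = c • x := hx
    rw [LinearEquiv.symm_apply_eq] at h2
    rw [h2, map_smul]
    rfl
  have h2 : Inv2 G W W (φ' - c • φ) := by
    intro e he x hx y hy
    have h3 := h' e he x hx y hy
    have h4 := h.2.2 e he x hx y hy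
    simp only [LinearMap.sub_apply, LinearMap.smul_apply, smul_eq_mul]
    linear_combination h3 - c * h4
  by_contra hcon
  push Not at hcon
  obtain ⟨y, hy, z, hz, hyz⟩ := hcon
  apply hx0
  refine Subtype.ext (h2.nd hW hW.1 ⟨y, hy, z, hz, ?_⟩ x x.2 fun w hw => ?_)
  · simp only [LinearMap.sub_apply, LinearMap.smul_apply, smul_eq_mul]
    exact sub_ne_zero.2 hyz
  · have h3 := LinearMap.congr_fun h1 ⟨w, hw⟩
    simp only [LinearMap.sub_apply, LinearMap.smul_apply, smul_eq_mul]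
    exact sub_eq_zero.2 h3

/-- Subspaces of these kinds are not orthogonal. -/
theorem not_orth (hne : G.Nonempty) (hGe : ∀ e ∈ G, e * e = e) (hss : Semisimple G)
    (hW : Irreducible G W) (hk : KSp G W ∨ KTr G W) : ¬ Orth G W := by
  rintro ⟨φ', hs, ⟨x, hx, y, hy, hxy⟩, hφ'⟩
  have hform : ∃ φ, FormOn G W φ := by
    rcases hk with hk | hk
    · exact form_of_ksp hss hW hk
    · by_cases h1 : finrank ℂ W = 1
      · exfalso
        obtain ⟨e, he⟩ := hne
        obtain ⟨v, hv0, hv⟩ := finrank_eq_one_iff'.1 h1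
        obtain ⟨c, hc⟩ := hv ⟨e v, hW.1 e he v v.2⟩
        have hc' : e (v : H) = c • (v : H) := (congrArg Subtype.val hc).symm
        have h2 : e (e (v : H)) = e v := LinearMap.congr_fun (hGe e he) v
        rw [hc', map_smul, hc', smul_smul] at h2
        have hv0' : (v : H) ≠ 0 := fun h => hv0 (Subtype.ext h)
        have h3 : c * c = c := smul_left_injective ℂ hv0' h2
        have h4 := hφ' e he v v.2 v v.2
        rw [hc', map_smul, LinearMap.smul_apply, map_smul, smul_eq_mul] at h4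
        have h5 : φ' (v : H) v = 0 := by
          have h6 : (2 * c - 1) * φ' (v : H) v = 0 := by linear_combination h4
          refine (mul_eq_zero.1 h6).resolve_left fun h7 => ?_
          have h8 : c = 1 / 2 := by linear_combination h7 / 2
          rw [h8] at h3
          norm_num at h3
        obtain ⟨a, ha⟩ := hv ⟨x, hx⟩
        obtain ⟨b, hb⟩ := hv ⟨y, hy⟩
        have ha' : x = a • (v : H) := (congrArg Subtype.val ha).symm
        have hb' : y = b • (v : H) := (congrArg Subtype.val hb).symm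
        apply hxy
        rw [ha', hb', map_smul, map_smul, LinearMap.smul_apply, h5, smul_zero, smul_zero]
      · exact form_of_ktr hGe hss hW h1 hk ⟨φ', fun e he x hx y hy => hφ' e he x hx y hy,
          x, hx, y, hy, hxy⟩
  obtain ⟨φ, hφ⟩ := hform
  obtain ⟨c, hc⟩ := form_unique hW hφ fun e he x hx y hy => hφ' e he x hx y hy
  have h1 := hφ.1 (x + y) (W.add_mem hx hy)
  rw [map_add, map_add, LinearMap.add_apply, LinearMap.add_apply, hφ.1 x hx, hφ.1 y hy] at h1
  have h2 := hs x hx y hy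
  rw [hc x hx y hy, hc y hy x hx] at h2
  apply hxy
  rw [hc x hx y hy]
  linear_combination (h2 + c * h1) / 2

/-- The condition on families of irreducible subspaces, without orthogonal subspaces. -/
def ColCond (G : Set (Module.End ℂ H)) (j k : ℕ) : Prop :=
  ∀ i, 0 < i → i ≤ j → ∀ (m : ℕ) (W : Fin m → Submodule ℂ H) (c : Fin m → ℕ),
    (∀ a, Irreducible G (W a)) → iSupIndep W → (∀ a, c a ≤ finrank ℂ (W a)) →
    (∀ a a', Paired G (W a) (W a') → c a + c a' ≤ finrank ℂ (W a)) →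
    ∑ a, c a + 2 * (j - i) = k → ∃ e ∈ G, ∑ a, (c a - finrank ℂ ((W a).map e)) < i

theorem colCond3 (hO : ∀ W, Irreducible G W → ¬ Orth G W) {j k : ℕ} (h : ColCond G j k) :
    ColCond3 G j k := by
  classical
  intro i hi hij m W c hW hind hc hcc hk
  obtain ⟨e, he, hs⟩ := h i hi hij m W c hW hind hc
    (fun a a' hp => hcc a a' hp (Or.inr (hO _ (hW a)))) hk
  refine ⟨e, he, ?_⟩
  refine lt_of_eq_of_lt (Finset.sum_congr rfl fun a _ => ?_) hs
  rw [defect, if_neg fun h => hO _ (hW a) h.1, add_zero]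

end

variable {V : Type u} [NormedAddCommGroup V] [NormedSpace ℂ V] {Λ : Submodule ℤ V}
  [DiscreteTopology Λ] [IsZLattice ℝ Λ] {ι : Type} [Fintype ι] [DecidableEq ι]
  [FiniteDimensional ℂ V] (b : Basis ι ℤ Λ) {E : V →L[ℝ] V →L[ℝ] ℝ}

theorem ghc_of_kinds7 (hE : IsRiemannForm Λ E) (j k : ℕ) (htw : NoTwist (hodgeConj b))
    (h : ∀ Y, IsSimple b Y → (∃ W ≤ Y, Irreducible (hodgeConj b) W ∧ 1 < finrank ℂ W) →
      ∃ U ≤ Y, Irreducible (hodgeConj b) U ∧
        (KSp (hodgeConj b) U ∨ KTr (hodgeConj b) U))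
    (hB : ColCond (hodgeConj b) j k) : GeneralizedHodge Λ j k := by
  refine ghc_of_kinds6 b hE j k htw h (colCond3 (fun W hW => ?_) hB)
  exact not_orth ⟨_, hodgeProj_mem b⟩ (hodgeConj_idem b) (semisimple b hE) hW (kinds6 b hE h W hW)

end Pool.Agent.GHCQ
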