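import Pool.Agent.GHCQ.Part
import Pool.Agent.NumRank.Split

/-!
# The kinds of the irreducible subspaces on which the generators are conjugate
-/

set_option autoImplicit false
set_option linter.unusedSectionVars false

namespace Pool.Agent.GHCQ

open Module Pool.Agent.CoprimeSig Pool.Agent.Mod4 Pool.Agent.NumRank Pool.Agent.FQA
open Pool.Agent.OddRank (Stable Irreducible Semisimple exists_proj lieSpan subset_lieSpan
  lieSpan_lie lieSpan_le stable_span mm mm_apply)
open Pool.Agent.TypeIV (SelfDual)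
open Pool.Agent.TypeIV.MX (KSp rst rst_apply rst_mul IrrData finrank_range_rst ksp_of_mm)
open Pool.Agent.Twist (KTr ScOn scOn_iff irrData₀ restr_ns₀ restr_nsd₀)
open Pool.Agent.FQ (expG IsExp)
open Pool.Agent.PrimePow (one_mem schur_irr)

variable {K V : Type*} [Field K] [CharZero K] [IsAlgClosed K] [AddCommGroup V] [Module K V]
  [FiniteDimensional K V]

/-- The unbalanced case: a root vector of rank one. -/
theorem exists_one_of_hall [Nontrivial V] {g t : Submodule K (End K V)} (T : TD g t)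
    {e : End K V} (het : e ∈ t) (hee : e * e = e) (h0 : e ≠ 0) (h1 : e ≠ 1)
    (hall : ∀ x ∈ g, ∃ a ∈ idl g {e}, ∃ c : K, x = a + c • 1)
    (hU1 : 2 * finrank K (LinearMap.range e) ≠ finrank K V)
    (hU2 : ∀ N k : ℕ, 2 ≤ k → k + 2 ≤ N → finrank K V = N.choose k →
      finrank K (LinearMap.range e) ≠ (N - 1).choose (k - 1)) :
    ∃ N ∈ g, N * N = 0 ∧ finrank K (LinearMap.range N) = 1 := by
  classical
  obtain ⟨I, hI, v, f, hf, D, h, α, x, y, P, hx0, H, hh⟩ :=
    exists_dt T.toCartan T.one T.irr T.hopp het hee h0 h1 hall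
  have hsum : ∑ i, f i = (finrank K (LinearMap.range e) : ℕ) := by
    have h2 := trace_diag v hf
    rw [PrimePow.trace_idem hee] at h2
    have h3 : ((finrank K (LinearMap.range e) : ℚ) : K) = ((∑ i, f i : ℚ) : K) := by
      rw [← h2, Rat.cast_natCast]
    exact (Rat.cast_injective h3).symm
  have hcard : Fintype.card I = finrank K V := (finrank_eq_card_basis v).symm
  rcases one_or_choose D (by
    rw [hsum, hcard]
    intro h2
    exact hU1 (by exact_mod_cast h2)) with h2 | ⟨N, k, hk, hkN, hN, hs⟩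
  · exact ⟨x, P.rx.mem, P.xx, NumRank.rank_one v P H hh h2⟩
  · exfalso
    rw [hcard] at hN
    rw [hsum] at hs
    exact hU2 N k hk hkN hN (by exact_mod_cast hs)

/-- The simplicity in the form of `SmallRank.Gr`. -/
theorem gr_of_hall [Nontrivial V] {g : Submodule K (End K V)}
    (hlie : ∀ x ∈ g, ∀ y ∈ g, x * y - y * x ∈ g)
    (hirr : ∀ U : Submodule K V, (∀ a ∈ g, ∀ w ∈ U, a w ∈ U) → U = ⊥ ∨ U = ⊤)
    (hone : (1 : End K V) ∈ g) {e : End K V} (he : e ∈ g) (hee : e * e = e) (h0 : e ≠ 0)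
    (h1 : e ≠ 1) (hall : ∀ x ∈ g, ∃ a ∈ idl g {e}, ∃ c : K, x = a + c • 1) :
    SmallRank.Gr g e := by
  refine ⟨hlie, hirr, hone, he, hee, h0, h1, fun s hs hid htr hne => ?_⟩
  rcases comm_split' hlie hirr hs hid htr he hee with ⟨c, hc⟩ | hcomm
  · -- the ideal contains `e` up to a scalar
    have hle : idl g {e} ≤ s ⊔ Submodule.span K {(1 : End K V)} := by
      refine sInf_le ⟨fun ε hε => ?_, fun x hx z hz => ?_⟩
      · rw [Set.mem_singleton_iff.1 hε]
        have h2 : (2 : K) • e - 1 = (2 : K) • (e - c • 1) + (2 * c - 1) • (1 : End K V) := by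
          rw [smul_sub, smul_smul, sub_smul, one_smul]
          abel
        rw [h2]
        exact Submodule.add_mem _ (Submodule.mem_sup_left (s.smul_mem _ hc))
          (Submodule.mem_sup_right (Submodule.smul_mem _ _ (Submodule.mem_span_singleton_self 1)))
      · obtain ⟨a, ha, b, hb, rfl⟩ := Submodule.mem_sup.1 hz
        obtain ⟨d, rfl⟩ := Submodule.mem_span_singleton.1 hb
        refine Submodule.mem_sup_left ?_
        have h2 : x * (a + d • 1) - (a + d • 1) * x = x * a - a * x := by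
          rw [mul_add, add_mul, mul_smul_comm, smul_mul_assoc, mul_one, one_mul]
          abel
        rw [h2]
        exact hid x hx a ha
    intro x hx
    obtain ⟨a, ha, d, rfl⟩ := hall x hx
    obtain ⟨a', ha', b, hb, rfl⟩ := Submodule.mem_sup.1 (hle ha)
    obtain ⟨d', rfl⟩ := Submodule.mem_span_singleton.1 hb
    exact ⟨a', ha', d' + d, by rw [add_smul, add_assoc]⟩
  · -- `g` commutes with the ideal
    exfalso
    let C : Submodule K (End K V) :=
      { carrier := {x | ∀ y ∈ s, x * y = y * x}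
        add_mem' := fun {a b} ha hb y hy => by rw [add_mul, mul_add, ha y hy, hb y hy]
        zero_mem' := fun y _ => by rw [zero_mul, mul_zero]
        smul_mem' := fun c x hx y hy => by rw [smul_mul_assoc, mul_smul_comm, hx y hy] }
    have hle : idl g {e} ≤ C := by
      refine sInf_le ⟨fun ε hε y hy => ?_, fun x hx z hz y hy => ?_⟩
      · rw [Set.mem_singleton_iff.1 hε, sub_mul, mul_sub, smul_mul_assoc, mul_smul_comm,
          hcomm y hy, one_mul, mul_one]
      · have h2 := hz y hy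
        have h3 := hz _ (hid x hx y hy)
        have h4 : (x * z - z * x) * y - y * (x * z - z * x) =
            x * (z * y - y * z) - (z * y - y * z) * x - (z * (x * y - y * x) -
              (x * y - y * x) * z) := by noncomm_ring
        rw [h2, h3, sub_self, sub_self, mul_zero, zero_mul, sub_zero, sub_zero] at h4
        exact sub_eq_zero.1 h4
    apply hne
    rw [Submodule.eq_bot_iff]
    intro z hz
    obtain ⟨c, hc⟩ := schur_irr hirr z fun x hx => by
      obtain ⟨a, ha, d, rfl⟩ := hall x hx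
      rw [mul_add, add_mul, hle ha z hz, mul_smul_comm, smul_mul_assoc, mul_one, one_mul]
    have h2 := htr z hz
    rw [hc, map_smul, LinearMap.trace_one, smul_eq_mul] at h2
    rcases mul_eq_zero.1 h2 with h3 | h3
    · rw [hc, h3, zero_smul]
    · rw [Nat.cast_eq_zero] at h3
      exact absurd h3 finrank_pos.ne'

/-- `mm φ u v` is skew. -/
theorem mm_skew {φ : V →ₗ[K] V →ₗ[K] K} (halt : ∀ x, φ x x = 0) (u v a b : V) :
    φ (mm φ u v a) b + φ a (mm φ u v b) = 0 := by
  have hs : ∀ x y, φ x y = -φ y x := by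
    intro x y
    have h1 := halt (x + y)
    rw [map_add, map_add, LinearMap.add_apply, LinearMap.add_apply, halt, halt] at h1
    linear_combination h1
  rw [mm_apply, mm_apply, map_add, map_smul, map_smul, LinearMap.add_apply, LinearMap.smul_apply,
    LinearMap.smul_apply, map_add, map_smul, map_smul]
  simp only [smul_eq_mul]
  rw [hs a v, hs a u]
  ring

variable {G : Set (Module.End K V)} {W : Submodule K V}

section

variable (hGe : ∀ e ∈ G, e * e = e) (hss : Semisimple G) (hW : Irreducible G W)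
include hGe hss hW

/-- The data on `W`. -/
theorem exists_data {e : Module.End K V} (he : e ∈ G) (hsc : ¬ ScOn e W)
    (h : NoPart G W) :
    ∃ (p : V →ₗ[K] W) (t : Submodule K (Module.End K W)), (∀ w : W, p w = w) ∧
      (∀ e ∈ G, ∀ v, p (e v) = e (p v)) ∧ Nontrivial W ∧ TD ((lieSpan G).map (rst p)) t ∧
      SmallRank.Gr ((lieSpan G).map (rst p)) (rst p e) ∧
      rst p e ∈ t ∧ rst p e * rst p e = rst p e ∧ rst p e ≠ 0 ∧ rst p e ≠ 1 ∧
      ∀ x ∈ (lieSpan G).map (rst p), ∃ a ∈ idl ((lieSpan G).map (rst p)) {rst p e},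
        ∃ c : K, x = a + c • 1 := by
  obtain ⟨p, hp, hpe⟩ := exists_proj hss hW.1
  have H := irrData₀ hGe hW hp
  have hGst : ∀ e ∈ G, ∀ w ∈ W, e w ∈ W := fun e he => hW.1 e he
  obtain ⟨h0, h1⟩ := restr_ns₀ hGe hW hp _ ⟨e, ⟨he, hsc⟩, rfl⟩
  have hee : rst p e * rst p e = rst p e := by
    rw [← rst_mul hp (hGst e he) (hGst e he), hGe e he]
  have hnt : Nontrivial W := by
    obtain ⟨w, hw, hw0⟩ := (Submodule.ne_bot_iff _).1 hW.2.1
    exact ⟨⟨⟨w, hw⟩, 0, fun h => hw0 (congrArg Subtype.val h)⟩⟩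
  have hirr : ∀ U : Submodule K W, (∀ a ∈ (lieSpan G).map (rst p), ∀ w ∈ U, a w ∈ U) →
      U = ⊥ ∨ U = ⊤ := fun U hU => H.hirr U fun e he => hU e (H.hG e he)
  have heg : rst p e ∈ (lieSpan G).map (rst p) := ⟨e, subset_lieSpan e he, rfl⟩
  have htre : LinearMap.trace K W (rst p e) ≠ 0 := by
    rw [PrimePow.trace_idem hee, Nat.cast_ne_zero]
    intro h
    apply h0
    rwa [Submodule.finrank_eq_zero, LinearMap.range_eq_bot] at h
  have hone := one_mem H.hlie (OddRank.trace_nondeg _ H.hlie hirr) (schur_irr hirr) heg htre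
  have hall := hall_of_part hGe hW hp hone h he hsc
  obtain ⟨t, T, het⟩ := exists_td H.hlie hirr heg hee h0 hall
  exact ⟨p, t, hp, hpe, hnt, T, gr_of_hall H.hlie hirr hone heg hee h0 h1 hall, het, hee, h0, h1,
    hall⟩

/-- **Unbalanced ranks**: all operators of trace zero on `W` are induced. -/
theorem ktr_of_cj {e : Module.End K V} (he : e ∈ G) (hsc : ¬ ScOn e W)
    (h : NoPart G W)
    (hU1 : 2 * finrank K (W.map e) ≠ finrank K W)
    (hU2 : ∀ N k : ℕ, 2 ≤ k → k + 2 ≤ N → finrank K W = N.choose k →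
      finrank K (W.map e) ≠ (N - 1).choose (k - 1)) : KTr G W := by
  obtain ⟨p, t, hp, hpe, hnt, T, Gr, het, hee, h0, h1, hall⟩ := exists_data hGe hss hW he hsc h
  have H := irrData₀ hGe hW hp
  have hgst : ∀ x ∈ lieSpan G, ∀ w ∈ W, x w ∈ W := fun x hx => stable_span hW.1 x hx
  have hrk : finrank K (LinearMap.range (rst p e)) = finrank K (W.map e) :=
    finrank_range_rst hp fun w hw => hW.1 e he w hw
  obtain ⟨N, hN, hNN, h2⟩ := exists_one_of_hall T het hee h0 h1 hall (by rwa [hrk])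
    (by rwa [hrk])
  have h3 : finrank K (W.map e) ≠ 0 ∧ finrank K (W.map e) ≠ finrank K W := by
    rw [scOn_iff (hGe e he) (hW.1 e he)] at hsc
    push Not at hsc
    exact hsc
  intro Z hZ
  obtain ⟨x, hx, hxZ⟩ := H.sl_of_one (restr_ns₀ hGe hW hp)
    (restr_nsd₀ hGe hW he h3.1 h3.2 hU1 hp) hN hNN h2 hZ
  exact ⟨x, hx, fun w => by rw [← hxZ, rst_apply hp (hgst x hx)]⟩

/-- **Symplectic subspaces**: all symplectic operators on `W` are induced. -/
theorem ksp_of_cj {e : Module.End K V} (he : e ∈ G) (hsc : ¬ ScOn e W)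
    (h : NoPart G W)
    {φ : V →ₗ[K] V →ₗ[K] K} (hφ : ∀ e ∈ G, ∀ x ∈ W, ∀ y ∈ W, φ (e x) y + φ x (e y) = φ x y)
    (halt : ∀ x ∈ W, φ x x = 0) (hnd : ∀ x ∈ W, (∀ y ∈ W, φ x y = 0) → x = 0)
    (hn : ∀ m : ℕ, 5 ≤ m → m % 4 = 1 ∨ m % 4 = 2 → finrank K W ≠ 2 ^ m)
    (hc : Cj G W e (1 - e) ∨ ∀ k : ℕ, Odd k → 3 ≤ k → finrank K W ≠ (2 * k).choose k) :
    KSp G W := by
  obtain ⟨p, t, hp, hpe, hnt, T, Gr, het, hee, h0, h1, hall⟩ := exists_data hGe hss hW he hsc h
  have H := Pool.Agent.TypeIV.MX.irrData hGe hW hp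
  have hgst : ∀ x ∈ lieSpan G, ∀ w ∈ W, x w ∈ W := fun x hx => stable_span hW.1 x hx
  have hGst : ∀ e ∈ G, ∀ w ∈ W, e w ∈ W := fun e he => hW.1 e he
  set θ : W →ₗ[K] W →ₗ[K] K := φ.compl₁₂ W.subtype W.subtype with hθ
  have halt' : ∀ x, θ x x = 0 := fun x => halt x x.2
  have hnd' : ∀ x, (∀ y, θ x y = 0) → x = 0 := fun x hx =>
    Subtype.ext (hnd x x.2 fun y hy => hx ⟨y, hy⟩)
  have hθG : ∀ e ∈ rst p '' G, ∀ u w, θ (e u) w + θ u (e w) = θ u w := by
    rintro _ ⟨e, he, rfl⟩ u w
    have h2 := hφ e he u u.2 w w.2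
    rw [← rst_apply hp (hGst e he), ← rst_apply hp (hGst e he)] at h2
    exact h2
  have hsim := H.hgen θ hθG
  have hcase : (∃ u ∈ SmallRank.up ((lieSpan G).map (rst p)) (rst p e),
      ∀ w, rst p e w = 0 → u w = 0 → w = 0) ∨
      ∀ k : ℕ, Odd k → 3 ≤ k → finrank K W ≠ (2 * k).choose k := by
    rcases hc with hc | hc
    · left
      obtain ⟨u, hu, h2⟩ := cj_rst hp hW.1 (hGst e he)
        (fun w hw => W.sub_mem hw (hGst e he w hw)) hc
      rw [map_sub, rst_one hp] at h2
      exact T.exists_tube (T.le het) hee hu h2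
    · exact Or.inr hc
  have hfull : ∀ D : End K W, (∀ a b, θ (D a) b + θ a (D b) = 0) →
      D ∈ (lieSpan G).map (rst p) := fun D hD =>
    sp_of_gr Gr halt' hnd' hsim (hθG _ ⟨e, he, rfl⟩) hn hcase hD
  refine ksp_of_mm hGe hss hW halt' hnd' ?_ hp fun u w => hfull _ (mm_skew halt' u w)
  intro e he u u₂ w w₂ hu hw
  have h2 := hφ e he u u.2 w w.2
  rw [← hu, ← hw] at h2
  exact h2

/-- **Subspaces which are not self-dual**, no generator is scalar. -/
theorem ktr_of_cj_bal {e : Module.End K V} (he : e ∈ G) (hns : ∀ e ∈ G, ¬ ScOn e W)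
    (h : NoPart G W)
    (hbal : 2 * finrank K (W.map e) = finrank K W) (hsd : ¬ SelfDual G W)
    (hn : ∀ m : ℕ, 4 ≤ m → Even m → finrank K W ≠ 2 ^ m)
    (hc : Cj G W e (1 - e) ∨ ∀ k : ℕ, 2 ≤ k → finrank K W ≠ (2 * k).choose k) :
    KTr G W := by
  obtain ⟨p, t, hp, hpe, hnt, T, Gr, het, hee, h0, h1, hall⟩ := exists_data hGe hss hW he (hns e he)
    h
  have hgst : ∀ x ∈ lieSpan G, ∀ w ∈ W, x w ∈ W := fun x hx => stable_span hW.1 x hx
  have hGst : ∀ e ∈ G, ∀ w ∈ W, e w ∈ W := fun e he => hW.1 e he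
  have hnf : ∀ φ : W →ₗ[K] W →ₗ[K] K, (∀ x, (∀ y, φ x y = 0) → x = 0) →
      ¬ ∀ x ∈ (lieSpan G).map (rst p), ∃ κ : K, ∀ a b, φ (x a) b + φ a (x b) = κ * φ a b := by
    intro φ hφ hcon
    apply hsd
    -- the multiplier is one
    have key : ∀ f ∈ G, ∀ a b, φ (rst p f a) b + φ a (rst p f b) = φ a b := by
      intro f hf
      obtain ⟨κ, hκ⟩ := hcon _ ⟨f, subset_lieSpan f hf, rfl⟩
      have hff : rst p f * rst p f = rst p f := by
        rw [← rst_mul hp (hGst f hf) (hGst f hf), hGe f hf]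
      obtain ⟨f0, f1⟩ : rst p f ≠ 0 ∧ rst p f ≠ 1 :=
        restr_ns₀ hGe hW hp _ ⟨f, ⟨hf, hns f hf⟩, rfl⟩
      have hfa : ∀ a, rst p f (rst p f a) = rst p f a := fun a => LinearMap.congr_fun hff a
      have hfs : ∀ b, rst p f (b - rst p f b) = 0 := fun b => by
        rw [map_sub (rst p f), hfa, sub_self]
      -- some product of the two eigenspaces is not zero
      by_cases hk : κ = 1
      · intro a b
        rw [hκ, hk, one_mul]
      exfalso
      have h2 : ∀ a b, φ (rst p f a) (b - rst p f b) = 0 := by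
        intro a b
        have h3 := hκ (rst p f a) (b - rst p f b)
        rw [hfa, hfs, map_zero, add_zero] at h3
        have h4 : (1 - κ) * φ (rst p f a) (b - rst p f b) = 0 := by linear_combination h3
        exact (mul_eq_zero.1 h4).resolve_left (sub_ne_zero.2 (Ne.symm hk))
      have h3 : ∀ a b, φ (a - rst p f a) (rst p f b) = 0 := by
        intro a b
        have h3 := hκ (a - rst p f a) (rst p f b)
        rw [hfs, hfa, map_zero, LinearMap.zero_apply, zero_add] at h3
        have h4 : (1 - κ) * φ (a - rst p f a) (rst p f b) = 0 := by linear_combination h3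
        exact (mul_eq_zero.1 h4).resolve_left (sub_ne_zero.2 (Ne.symm hk))
      -- nonzero vectors of both eigenspaces
      obtain ⟨a, ha⟩ : ∃ a, rst p f a ≠ 0 := by
        by_contra h4
        push Not at h4
        exact f0 (LinearMap.ext h4)
      obtain ⟨b, hb⟩ : ∃ b, b - rst p f b ≠ 0 := by
        by_contra h4
        push Not at h4
        exact f1 (LinearMap.ext fun b => (sub_eq_zero.1 (h4 b)).symm)
      have e1 : κ = 2 := by
        by_contra hk2
        apply ha
        apply hφ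
        intro y
        have h5 : φ (rst p f a) (rst p f y) = 0 := by
          have h6 := hκ (rst p f a) (rst p f y)
          rw [hfa, hfa] at h6
          have h7 : (2 - κ) * φ (rst p f a) (rst p f y) = 0 := by linear_combination h6
          exact (mul_eq_zero.1 h7).resolve_left (sub_ne_zero.2 (Ne.symm hk2))
        have h6 := h2 a y
        rw [map_sub, h5, sub_zero] at h6
        exact h6
      apply hb
      apply hφ
      intro y
      have h5 : φ (b - rst p f b) (y - rst p f y) = 0 := by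
        have h6 := hκ (b - rst p f b) (y - rst p f y)
        rw [hfs, hfs, map_zero, map_zero, LinearMap.zero_apply, add_zero, e1] at h6
        exact (mul_eq_zero.1 h6.symm).resolve_left two_ne_zero
      have h6 := h3 b y
      rw [map_sub (φ (b - rst p f b)), h6, sub_zero] at h5
      exact h5
    refine ⟨φ.compl₁₂ p p, fun x hx hxy => ?_, fun f hf x hx y hy => ?_⟩
    · have h2 : (⟨x, hx⟩ : W) = 0 := hφ _ fun y => by
        have h3 := hxy y y.2
        rw [LinearMap.compl₁₂_apply, hp ⟨x, hx⟩, hp y] at h3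
        exact h3
      exact congrArg Subtype.val h2
    · have h2 := key f hf ⟨x, hx⟩ ⟨y, hy⟩
      rw [LinearMap.compl₁₂_apply, LinearMap.compl₁₂_apply, LinearMap.compl₁₂_apply,
        hp ⟨x, hx⟩, hp ⟨y, hy⟩]
      exact h2
  have hcase : (∃ u ∈ SmallRank.up ((lieSpan G).map (rst p)) (rst p e),
      ∀ w, rst p e w = 0 → u w = 0 → w = 0) ∨
      ∀ k : ℕ, 2 ≤ k → finrank K W ≠ (2 * k).choose k := by
    rcases hc with hc | hc
    · left
      obtain ⟨u, hu, h2⟩ := cj_rst hp hW.1 (hGst e he)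
        (fun w hw => W.sub_mem hw (hGst e he w hw)) hc
      rw [map_sub, rst_one hp] at h2
      exact T.exists_tube (T.le het) hee hu h2
    · exact Or.inr hc
  have hb : 2 * SmallRank.rk (rst p e) = finrank K W := by
    change 2 * finrank K (LinearMap.range (rst p e)) = _
    rw [finrank_range_rst hp (hGst e he)]
    exact hbal
  have hfull : ∀ D : End K W, D ∈ (lieSpan G).map (rst p) := by
    intro D
    by_cases d2 : finrank K W = 2
    · exact T.full_of_proj hnf (T.le het) hee h1 (by omega) D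
    by_cases d4 : finrank K W = 4
    · exact T.full_four hnf d4 (T.le het) hee (by omega) D
    exact nf_of_gr Gr hb (form_zero T.irr hnf) d2 d4 hn hcase D
  intro Z _
  obtain ⟨x, hx, hxZ⟩ := hfull Z
  exact ⟨x, hx, fun w => by rw [← hxZ, rst_apply hp (hgst x hx)]⟩

end

end Pool.Agent.GHCQ
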