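import Pool.Agent.GHCQ.Restr
import Pool.Agent.NumRank.Hall

/-!
# The ideal generated by one generator: ranks and conjugacy

`NoPart G W`: the generators which are not scalar on `W` cannot be divided into two nonempty sets
such that no element of the first is conjugate to an element `e'` of the second or to `1 - e'`, and
such that the ranks in the first are divisible by `n₁` and those in the second by `n₂`, where
`n₁ n₂ = dim W` and `n₁, n₂ > 1`. Then the Lie algebra on `W` is the sum of the scalars and of the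
ideal generated by any of these generators (`hall_of_part`).
-/

set_option autoImplicit false
set_option linter.unusedSectionVars false

namespace Pool.Agent.GHCQ

open Module
open Pool.Agent.OddRank (Stable Irreducible Semisimple exists_proj lieSpan subset_lieSpan
  lieSpan_lie lieSpan_le stable_span)
open Pool.Agent.TypeIV.MX (rst rst_apply rst_mul IrrData finrank_range_rst)
open Pool.Agent.Twist (ScOn scOn_iff irrData₀ restr_ns₀)
open Pool.Agent.FQ (expG IsExp)
open Pool.Agent.Mod4 (idl)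
open Pool.Agent.NumRank (comm_split' clifford)

variable {K V : Type*} [Field K] [CharZero K] [IsAlgClosed K] [AddCommGroup V] [Module K V]
  [FiniteDimensional K V] {G : Set (Module.End K V)} {W : Submodule K V}

/-- The ranks and the conjugacy on `W` do not allow a factorisation. -/
def NoPart (G : Set (Module.End K V)) (W : Submodule K V) : Prop :=
  ∀ (n₁ n₂ : ℕ) (S T : Set (Module.End K V)), 1 < n₁ → 1 < n₂ → n₁ * n₂ = finrank K W →
    S.Nonempty → T.Nonempty → S ∪ T = {e | e ∈ G ∧ ¬ ScOn e W} →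
    (∀ e ∈ S, n₁ ∣ finrank K (W.map e)) → (∀ e ∈ T, n₂ ∣ finrank K (W.map e)) →
    ∃ e ∈ S, ∃ e' ∈ T, Cj G W e e' ∨ Cj G W e (1 - e')

private theorem mem_add_scalar {s : Submodule K (End K V)} (x : End K V) :
    x ∈ s ⊔ Submodule.span K {(1 : End K V)} ↔ ∃ a ∈ s, ∃ c : K, x = a + c • 1 := by
  rw [Submodule.mem_sup]
  constructor
  · rintro ⟨a, ha, b, hb, rfl⟩
    obtain ⟨c, rfl⟩ := Submodule.mem_span_singleton.1 hb
    exact ⟨a, ha, c, rfl⟩
  · rintro ⟨a, ha, c, rfl⟩
    exact ⟨a, ha, c • 1, Submodule.smul_mem _ _ (Submodule.mem_span_singleton_self 1), rfl⟩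

private theorem bracket_scalar (a b : End K V) (c d : K) :
    (a + c • 1) * (b + d • 1) - (b + d • 1) * (a + c • 1) = a * b - b * a := by
  simp only [mul_add, add_mul, smul_mul_assoc, mul_smul_comm, one_mul, mul_one, smul_add]
  rw [smul_smul, smul_smul, mul_comm c d]
  abel

private theorem scalar_idem [Nontrivial V] {c : K} (h : (c • (1 : End K V)) * (c • 1) = c • 1) :
    c • (1 : End K V) = 0 ∨ c • (1 : End K V) = 1 := by
  rw [smul_mul_smul_comm, one_mul] at h
  have h1 : c * c = c := smul_left_injective K (one_ne_zero (α := End K V)) h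
  have h2 : c * (c - 1) = 0 := by linear_combination h1
  rcases mul_eq_zero.1 h2 with h3 | h3
  · left
    rw [h3, zero_smul]
  · right
    rw [sub_eq_zero.1 h3, one_smul]

variable (hGe : ∀ e ∈ G, e * e = e) (hW : Irreducible G W)
include hGe hW

theorem hall_of_part {p : V →ₗ[K] W} (hp : ∀ w : W, p w = w) [Nontrivial W]
    (hone : (1 : Module.End K W) ∈ (lieSpan G).map (rst p)) (hT : NoPart G W)
    {e₀ : Module.End K V} (he₀ : e₀ ∈ G) (hs₀ : ¬ ScOn e₀ W) :
    ∀ x ∈ (lieSpan G).map (rst p), ∃ a ∈ idl ((lieSpan G).map (rst p)) {rst p e₀}, ∃ c : K,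
      x = a + c • 1 := by
  have H := irrData₀ hGe hW hp
  have hGst : ∀ e ∈ G, ∀ w ∈ W, e w ∈ W := fun e he => hW.1 e he
  have hgst : ∀ x ∈ lieSpan G, ∀ w ∈ W, x w ∈ W := fun x hx => stable_span hW.1 x hx
  have hns := restr_ns₀ hGe hW hp
  have hns' : ∀ e ∈ G, ¬ ScOn e W → rst p e ≠ 0 ∧ rst p e ≠ 1 := fun e he hs =>
    hns _ ⟨e, ⟨he, hs⟩, rfl⟩
  have hidem : ∀ e ∈ G, rst p e * rst p e = rst p e := fun e he => by
    rw [← rst_mul hp (hGst e he) (hGst e he), hGe e he]
  have hrk : ∀ e ∈ G, finrank K (LinearMap.range (rst p e)) = finrank K (W.map e) :=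
    fun e he => finrank_range_rst hp (hGst e he)
  set g := (lieSpan G).map (rst p) with hg
  have hGg : ∀ e ∈ G, rst p e ∈ g := fun e he => ⟨e, subset_lieSpan e he, rfl⟩
  have hlie := H.hlie
  have hirr : ∀ U : Submodule K W, (∀ a ∈ g, ∀ w ∈ U, a w ∈ U) → U = ⊥ ∨ U = ⊤ :=
    fun U hU => H.hirr U fun e he => hU e (H.hG e he)
  have hn : (finrank K W : K) ≠ 0 := by
    rw [Nat.cast_ne_zero]
    exact (finrank_pos (R := K) (M := W)).ne'
  set c₀ : K := LinearMap.trace K W (rst p e₀) / (finrank K W : K) with hc₀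
  set s : Submodule K (End K W) :=
    sInf {I | rst p e₀ - c₀ • 1 ∈ I ∧ ∀ x ∈ g, ∀ z ∈ I, x * z - z * x ∈ I} with hs
  have hsg : s ≤ g :=
    sInf_le ⟨g.sub_mem (hGg e₀ he₀) (g.smul_mem _ hone), fun x hx z hz => hlie x hx z hz⟩
  have hsi : ∀ x ∈ g, ∀ z ∈ s, x * z - z * x ∈ s := by
    intro x hx z hz
    rw [hs, Submodule.mem_sInf] at hz ⊢
    exact fun I hI => hI.2 x hx z (hz I hI)
  have hs0 : rst p e₀ - c₀ • 1 ∈ s := by
    rw [hs, Submodule.mem_sInf]
    exact fun I hI => hI.1
  have hstr : ∀ a ∈ s, LinearMap.trace K W a = 0 := by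
    have h1 : s ≤ LinearMap.ker (LinearMap.trace K W) := by
      refine sInf_le ⟨?_, fun x _ z _ => ?_⟩
      · rw [LinearMap.mem_ker, map_sub, map_smul, LinearMap.trace_one, smul_eq_mul, hc₀,
          div_mul_cancel₀ _ hn, sub_self]
      · rw [LinearMap.mem_ker, map_sub, LinearMap.trace_mul_comm, sub_self]
    exact fun a ha => h1 ha
  -- comparison with `idl`
  have hidl1 : (2 : K) • rst p e₀ - 1 ∈ idl g {rst p e₀} := by
    rw [idl, Submodule.mem_sInf]
    exact fun I hI => hI.1 _ rfl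
  have hidl2 : ∀ x ∈ g, ∀ z ∈ idl g {rst p e₀}, x * z - z * x ∈ idl g {rst p e₀} := by
    intro x hx z hz
    rw [idl, Submodule.mem_sInf] at hz ⊢
    exact fun I hI => hI.2 x hx z (hz I hI)
  have hsub : s ≤ idl g {rst p e₀} ⊔ Submodule.span K {(1 : End K W)} := by
    refine sInf_le ⟨?_, fun x hx z hz => ?_⟩
    · rw [mem_add_scalar]
      refine ⟨(2 : K)⁻¹ • ((2 : K) • rst p e₀ - 1), Submodule.smul_mem _ _ hidl1,
        (2 : K)⁻¹ - c₀, ?_⟩
      have h2 : (2 : K) ≠ 0 := two_ne_zero
      match_scalars <;> field_simp <;> ring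
    · rw [mem_add_scalar] at hz
      obtain ⟨a, ha, c, rfl⟩ := hz
      apply Submodule.mem_sup_left
      have h1 := bracket_scalar x a 0 c
      rw [zero_smul, add_zero] at h1
      rw [h1]
      exact hidl2 x hx a ha
  -- the generators
  have key : ∀ e ∈ G, ¬ ScOn e W → ∃ c : K, rst p e - c • 1 ∈ s := by
    by_contra hno
    push Not at hno
    obtain ⟨e₁, he₁, hs₁, hno⟩ := hno
    have hcomm : ∀ e ∈ G, (∀ c : K, rst p e - c • 1 ∉ s) → ∀ y ∈ s, rst p e * y = y * rst p e := by
      intro e he hno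
      rcases comm_split' hlie hirr hsg hsi hstr (hGg e he) (hidem e he) with h | h
      · obtain ⟨c, hc⟩ := h
        exact absurd hc (hno c)
      · exact h
    obtain ⟨n₁, n₂, hmul, h1, h2, hd2, hd1⟩ := clifford hlie hirr hsg hsi hstr
    have hpos : 0 < n₁ * n₂ := by
      rw [hmul]
      exact finrank_pos
    have hp1 : 0 < n₁ := Nat.pos_of_mul_pos_right hpos
    have hp2 : 0 < n₂ := Nat.pos_of_mul_pos_left hpos
    have hn1 : n₁ ≠ 1 := by
      intro h
      have h3 := h1 h _ hs0
      rw [sub_eq_zero] at h3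
      have h4 := hidem e₀ he₀
      rw [h3] at h4
      rcases scalar_idem h4 with h5 | h5
      · exact (hns' e₀ he₀ hs₀).1 (h3.trans h5)
      · exact (hns' e₀ he₀ hs₀).2 (h3.trans h5)
    have hn2 : n₂ ≠ 1 := by
      intro h
      obtain ⟨c, hc⟩ := h2 h (rst p e₁) (hcomm e₁ he₁ hno)
      have h4 := hidem e₁ he₁
      rw [hc] at h4
      rcases scalar_idem h4 with h5 | h5
      · exact (hns' e₁ he₁ hs₁).1 (hc.trans h5)
      · exact (hns' e₁ he₁ hs₁).2 (hc.trans h5)
    obtain ⟨e, ⟨he, hes, c, hc⟩, e', ⟨he', hes', hno'⟩, hcj⟩ := hT n₂ n₁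
      {e | e ∈ G ∧ ¬ ScOn e W ∧ ∃ c : K, rst p e - c • 1 ∈ s}
      {e | e ∈ G ∧ ¬ ScOn e W ∧ ∀ c : K, rst p e - c • 1 ∉ s} (by omega) (by omega)
      (by rw [mul_comm, hmul]) ⟨e₀, he₀, hs₀, c₀, hs0⟩ ⟨e₁, he₁, hs₁, hno⟩ (by
        ext e
        simp only [Set.mem_union, Set.mem_setOf_eq]
        constructor
        · rintro (h | h)
          · exact ⟨h.1, h.2.1⟩
          · exact ⟨h.1, h.2.1⟩
        · rintro ⟨he, hes⟩
          by_cases h : ∃ c : K, rst p e - c • 1 ∈ s
          · exact Or.inl ⟨he, hes, h⟩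
          · push Not at h
            exact Or.inr ⟨he, hes, h⟩)
      (fun e he => by rw [← hrk e he.1]; exact hd2 _ he.2.2)
      (fun e he => by rw [← hrk e he.1]; exact hd1 _ (hcomm e he.1 he.2.2))
    have hconj : ∀ f : Module.End K V, (∀ w ∈ W, f w ∈ W) → Cj G W e f →
        rst p f - c • 1 ∈ s := by
      intro f hf hcf
      obtain ⟨u, hu, h1⟩ := cj_rst hp hW.1 (hGst e he) hf hcf
      have h3 := FQ.conj_mem hsi hu hc
      rw [mul_sub, sub_mul, mul_smul_comm, smul_mul_assoc, h1, mul_one, Units.mul_inv] at h3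
      exact h3
    rcases hcj with h3 | h3
    · exact hno' c (hconj e' (hGst e' he') h3)
    · have h4 := hconj (1 - e') (fun w hw => W.sub_mem hw (hGst e' he' w hw)) h3
      rw [map_sub, rst_one hp] at h4
      apply hno' (1 - c)
      have h5 : rst p e' - (1 - c) • (1 : End K W) = -(1 - rst p e' - c • 1) := by
        match_scalars <;> ring
      rw [h5]
      exact s.neg_mem h4
  have hgen : ∀ e ∈ G, rst p e ∈ s ⊔ Submodule.span K {(1 : End K W)} := by
    intro e he
    by_cases hes : ScOn e W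
    · rcases hes with hes | hes
      · have h1 : rst p e = 0 := by
          ext w
          rw [rst_apply hp (hGst e he), hes w w.2]
          rfl
        rw [h1]
        exact Submodule.zero_mem _
      · have h1 : rst p e = 1 := by
          ext w
          rw [rst_apply hp (hGst e he), hes w w.2]
          rfl
        rw [h1]
        exact Submodule.mem_sup_right (Submodule.mem_span_singleton_self 1)
    · obtain ⟨c, hc⟩ := key e he hes
      rw [mem_add_scalar]
      exact ⟨_, hc, c, by rw [sub_add_cancel]⟩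
  let g' : Submodule K (Module.End K V) :=
    { carrier := {x | (∀ w ∈ W, x w ∈ W) ∧ rst p x ∈ s ⊔ Submodule.span K {(1 : End K W)}}
      add_mem' := by
        rintro x y ⟨hx, h1⟩ ⟨hy, h3⟩
        refine ⟨fun w hw => W.add_mem (hx w hw) (hy w hw), ?_⟩
        rw [map_add]
        exact Submodule.add_mem _ h1 h3
      zero_mem' := ⟨fun w _ => W.zero_mem, by rw [map_zero]; exact Submodule.zero_mem _⟩
      smul_mem' := by
        rintro r x ⟨hx, h1⟩
        refine ⟨fun w hw => W.smul_mem r (hx w hw), ?_⟩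
        rw [map_smul]
        exact Submodule.smul_mem _ _ h1 }
  have hle : lieSpan G ≤ g' := by
    refine lieSpan_le ?_ ?_
    · exact fun e he => ⟨hGst e he, hgen e he⟩
    · rintro x ⟨hx, h1⟩ y ⟨hy, h3⟩
      refine ⟨fun w hw => W.sub_mem (hx _ (hy w hw)) (hy _ (hx w hw)), ?_⟩
      obtain ⟨a, ha, c, hxa⟩ := (mem_add_scalar _).1 h1
      obtain ⟨a', ha', c', hya⟩ := (mem_add_scalar _).1 h3
      rw [map_sub, rst_mul hp hx hy, rst_mul hp hy hx, hxa, hya, bracket_scalar]
      exact Submodule.mem_sup_left (hsi a (hsg ha) a' ha')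
  rintro _ ⟨x, hx, rfl⟩
  exact (mem_add_scalar _).1 (sup_le hsub le_sup_right (hle hx).2)

end Pool.Agent.GHCQ
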