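import Pool.Agent.GHCQ.Core
import Pool.Agent.Twist.Kinds
import Pool.Agent.FQ.ExpStab

/-!
# Conjugate idempotents on an irreducible subspace

`Cj G W e e'`: an element of the group generated by the exponentials of the nilpotent elements of the
Lie algebra conjugates `e` into `e'` on `W`. If all generators which are not scalar on `W` are
conjugate on `W`, up to `e ↦ 1 - e`, then the Lie algebra on `W` is the sum of the scalars and of
the ideal generated by one of them (`hall_of_one`).
-/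

set_option autoImplicit false
set_option linter.unusedSectionVars false

namespace Pool.Agent.GHCQ

open Module
open Pool.Agent.OddRank (Stable Irreducible Semisimple exists_proj lieSpan subset_lieSpan
  lieSpan_lie lieSpan_le stable_span)
open Pool.Agent.TypeIV.MX (rst rst_apply rst_mul IrrData finrank_range_rst)
open Pool.Agent.Twist (ScOn scOn_iff irrData₀ restr_ns₀)
open Pool.Agent.FQ (expG IsExp)
open Pool.Agent.Mod4 (idl)

variable {K V : Type*} [Field K] [CharZero K] [IsAlgClosed K] [AddCommGroup V] [Module K V]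
  [FiniteDimensional K V] {G : Set (Module.End K V)} {W : Submodule K V}

/-- `e'` is conjugate to `e` on `W`, under the group generated by the exponentials of the nilpotent
elements of the Lie algebra. -/
def Cj (G : Set (Module.End K V)) (W : Submodule K V) (e e' : Module.End K V) : Prop :=
  ∃ u ∈ expG K (lieSpan G), ∀ w ∈ W, (u : Module.End K V) (e w) = e' ((u : Module.End K V) w)

/-- The inverse of an operator which respects `W` respects `W`. -/
theorem inv_stable {u : (Module.End K V)ˣ} (hu : ∀ w ∈ W, (u : Module.End K V) w ∈ W) :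
    ∀ w ∈ W, ((u⁻¹ : (Module.End K V)ˣ) : Module.End K V) w ∈ W := by
  have hinj : Function.Injective (u : Module.End K V) := by
    intro x y hxy
    have h1 : ((u⁻¹ : (Module.End K V)ˣ) : Module.End K V) ((u : Module.End K V) x) =
        ((u⁻¹ : (Module.End K V)ˣ) : Module.End K V) ((u : Module.End K V) y) := by rw [hxy]
    rwa [← Module.End.mul_apply, ← Module.End.mul_apply, Units.inv_mul] at h1
  have h2 : W.map (u : Module.End K V) = W := by
    refine Submodule.eq_of_le_of_finrank_eq ?_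
      (LinearEquiv.finrank_eq (Submodule.equivMapOfInjective _ hinj W)).symm
    rintro _ ⟨w, hw, rfl⟩
    exact hu w hw
  intro w hw
  rw [← h2] at hw
  obtain ⟨w', hw', rfl⟩ := hw
  rw [← Module.End.mul_apply, Units.inv_mul]
  exact hw'

theorem rst_one {p : V →ₗ[K] W} (hp : ∀ w : W, p w = w) : rst p 1 = 1 := by
  ext w
  rw [rst_apply hp (fun w hw => hw)]
  rfl

theorem rst_pow {p : V →ₗ[K] W} (hp : ∀ w : W, p w = w) {N : Module.End K V}
    (hN : ∀ w ∈ W, N w ∈ W) (i : ℕ) : (∀ w ∈ W, (N ^ i) w ∈ W) ∧ rst p (N ^ i) = rst p N ^ i := by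
  induction i with
  | zero => exact ⟨fun w hw => hw, by rw [pow_zero, pow_zero, rst_one hp]⟩
  | succ i ih =>
    refine ⟨fun w hw => ?_, ?_⟩
    · rw [pow_succ, Module.End.mul_apply]
      exact ih.1 _ (hN w hw)
    · rw [pow_succ, rst_mul hp ih.1 hN, ih.2, pow_succ]

/-- The restriction of an element of the group. -/
theorem expG_rst {p : V →ₗ[K] W} (hp : ∀ w : W, p w = w) (hW : Stable G W)
    {u : (Module.End K V)ˣ} (hu : u ∈ expG K (lieSpan G)) :
    (∀ w ∈ W, (u : Module.End K V) w ∈ W) ∧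
      ∃ u' ∈ expG K ((lieSpan G).map (rst p)), (u' : Module.End K W) = rst p u := by
  have hinv : ∀ {u : (Module.End K V)ˣ}, (∀ w ∈ W, (u : Module.End K V) w ∈ W) →
      rst p u * rst p ((u⁻¹ : (Module.End K V)ˣ) : Module.End K V) = 1 ∧
      rst p ((u⁻¹ : (Module.End K V)ˣ) : Module.End K V) * rst p u = 1 := by
    intro u hu
    rw [← rst_mul hp hu (inv_stable hu), ← rst_mul hp (inv_stable hu) hu, Units.mul_inv,
      Units.inv_mul, rst_one hp]
    exact ⟨rfl, rfl⟩
  unfold expG at hu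
  induction hu using Subgroup.closure_induction with
  | mem x hx =>
    obtain ⟨N, hN, k, hk, hx⟩ := hx
    have hNW : ∀ w ∈ W, N w ∈ W := stable_span hW N hN
    have hxW : ∀ w ∈ W, (x : Module.End K V) w ∈ W := by
      intro w hw
      rw [hx, LinearMap.sum_apply]
      exact W.sum_mem fun i _ => W.smul_mem _ ((rst_pow hp hNW i).1 w hw)
    refine ⟨hxW, ⟨rst p x, rst p ((x⁻¹ : (Module.End K V)ˣ) : Module.End K V), (hinv hxW).1,
      (hinv hxW).2⟩, Subgroup.subset_closure ⟨rst p N, ⟨N, hN, rfl⟩, k, ?_, ?_⟩, rfl⟩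
    · rw [← (rst_pow hp hNW k).2, hk, map_zero]
    · change rst p (x : Module.End K V) = _
      rw [hx, map_sum]
      refine Finset.sum_congr rfl fun i _ => ?_
      rw [map_smul, (rst_pow hp hNW i).2]
  | one => exact ⟨fun w hw => hw, 1, one_mem _, by rw [Units.val_one, Units.val_one, rst_one hp]⟩
  | mul x y _ _ hx hy =>
    obtain ⟨hx, x', hx', h1⟩ := hx
    obtain ⟨hy, y', hy', h2⟩ := hy
    refine ⟨fun w hw => hx _ (hy w hw), x' * y', mul_mem hx' hy', ?_⟩
    rw [Units.val_mul, Units.val_mul, rst_mul hp hx hy, h1, h2]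
  | inv x _ hx =>
    obtain ⟨hx, x', hx', h1⟩ := hx
    refine ⟨inv_stable hx, x'⁻¹, inv_mem hx', ?_⟩
    have h2 := (hinv hx).2
    rw [← h1] at h2
    exact (Units.eq_inv_of_mul_eq_one_right h2).symm

/-- Conjugation on `W`. -/
theorem cj_rst {p : V →ₗ[K] W} (hp : ∀ w : W, p w = w) (hW : Stable G W)
    {e e' : Module.End K V} (he : ∀ w ∈ W, e w ∈ W) (he' : ∀ w ∈ W, e' w ∈ W)
    (h : Cj G W e e') : ∃ u ∈ expG K ((lieSpan G).map (rst p)),
      (u : Module.End K W) * rst p e * ((u⁻¹ : (Module.End K W)ˣ) : Module.End K W) =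
        rst p e' := by
  obtain ⟨u, hu, h⟩ := h
  obtain ⟨huW, u', hu', h1⟩ := expG_rst hp hW hu
  refine ⟨u', hu', ?_⟩
  rw [Units.mul_inv_eq_iff_eq_mul, h1, ← rst_mul hp huW he, ← rst_mul hp he' huW]
  ext w
  rw [rst_apply hp (x := (u : Module.End K V) * e) fun w hw => huW _ (he w hw),
    rst_apply hp (x := e' * (u : Module.End K V)) fun w hw => he' _ (huW w hw)]
  exact h w w.2

variable (hGe : ∀ e ∈ G, e * e = e) (hW : Irreducible G W)
include hGe hW

theorem hall_of_one {p : V →ₗ[K] W} (hp : ∀ w : W, p w = w) {e : Module.End K V} (he : e ∈ G)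
    (hone : (1 : Module.End K W) ∈ (lieSpan G).map (rst p))
    (h : ∀ e' ∈ G, ¬ ScOn e' W → Cj G W e e' ∨ Cj G W e (1 - e')) :
    ∀ x ∈ (lieSpan G).map (rst p), ∃ a ∈ idl ((lieSpan G).map (rst p)) {rst p e}, ∃ c : K,
      x = a + c • 1 := by
  set g := (lieSpan G).map (rst p) with hg
  have hGst : ∀ e ∈ G, ∀ w ∈ W, e w ∈ W := fun e he => hW.1 e he
  have hgst : ∀ x ∈ lieSpan G, ∀ w ∈ W, x w ∈ W := fun x hx => stable_span hW.1 x hx
  have hlie : ∀ x ∈ g, ∀ y ∈ g, x * y - y * x ∈ g := by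
    rintro _ ⟨x, hx, rfl⟩ _ ⟨y, hy, rfl⟩
    refine ⟨x * y - y * x, lieSpan_lie x hx y hy, ?_⟩
    rw [map_sub, rst_mul hp (hgst x hx) (hgst y hy), rst_mul hp (hgst y hy) (hgst x hx)]
  have heg : rst p e ∈ g := ⟨e, subset_lieSpan e he, rfl⟩
  have hle : idl g {rst p e} ≤ g := by
    refine sInf_le ⟨fun ε hε => ?_, hlie⟩
    rw [Set.mem_singleton_iff.1 hε]
    exact g.sub_mem (g.smul_mem _ heg) hone
  have hid : ∀ x ∈ g, ∀ z ∈ idl g {rst p e}, x * z - z * x ∈ idl g {rst p e} := by
    intro x hx z hz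
    rw [idl, Submodule.mem_sInf] at hz ⊢
    exact fun I hI => hI.2 x hx z (hz I hI)
  have hin : (2 : K) • rst p e - 1 ∈ idl g {rst p e} := by
    rw [idl, Submodule.mem_sInf]
    exact fun I hI => hI.1 _ rfl
  have h2 : (2 : K) ≠ 0 := two_ne_zero
  -- the generators
  have hgen : ∀ e' ∈ G, ∃ a ∈ idl g {rst p e}, ∃ c : K, rst p e' = a + c • 1 := by
    intro e' he'
    have hconj : ∀ f : Module.End K V, (∀ w ∈ W, f w ∈ W) → Cj G W e f →
        (2 : K) • rst p f - 1 ∈ idl g {rst p e} := by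
      intro f hf hc
      obtain ⟨u, hu, h1⟩ := cj_rst hp hW.1 (hGst e he) hf hc
      have h3 := FQ.conj_mem hid hu hin
      rw [mul_sub, sub_mul, mul_smul_comm, smul_mul_assoc, h1, mul_one, Units.mul_inv] at h3
      exact h3
    by_cases hs : ScOn e' W
    · rcases hs with hs | hs
      · refine ⟨0, Submodule.zero_mem _, 0, ?_⟩
        rw [zero_smul, add_zero]
        ext w
        rw [rst_apply hp (hGst e' he'), hs w w.2]
        rfl
      · refine ⟨0, Submodule.zero_mem _, 1, ?_⟩
        rw [one_smul, zero_add]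
        ext w
        rw [rst_apply hp (hGst e' he'), hs w w.2]
        rfl
    · rcases h e' he' hs with h1 | h1
      · have h3 := hconj e' (hGst e' he') h1
        refine ⟨(2 : K)⁻¹ • ((2 : K) • rst p e' - 1), Submodule.smul_mem _ _ h3, (2 : K)⁻¹, ?_⟩
        rw [smul_sub, smul_smul, inv_mul_cancel₀ h2, one_smul, sub_add_cancel]
      · have h3 := hconj (1 - e') (fun w hw => W.sub_mem hw (hGst e' he' w hw)) h1
        rw [map_sub, rst_one hp] at h3
        refine ⟨-((2 : K)⁻¹ • ((2 : K) • (1 - rst p e') - 1)),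
          Submodule.neg_mem _ (Submodule.smul_mem _ _ h3), (2 : K)⁻¹, ?_⟩
        match_scalars <;> field_simp <;> ring
  let g' : Submodule K (Module.End K V) :=
    { carrier := {x | (∀ w ∈ W, x w ∈ W) ∧ ∃ a ∈ idl g {rst p e}, ∃ c : K,
        rst p x = a + c • 1}
      add_mem' := by
        rintro x y ⟨hx, a, ha, c, h1⟩ ⟨hy, b, hb, d, h3⟩
        refine ⟨fun w hw => W.add_mem (hx w hw) (hy w hw), a + b, Submodule.add_mem _ ha hb,
          c + d, ?_⟩
        rw [map_add, h1, h3, add_smul]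
        abel
      zero_mem' := ⟨fun w _ => W.zero_mem, 0, Submodule.zero_mem _, 0, by simp⟩
      smul_mem' := by
        rintro r x ⟨hx, a, ha, c, h1⟩
        refine ⟨fun w hw => W.smul_mem r (hx w hw), r • a, Submodule.smul_mem _ _ ha, r * c, ?_⟩
        rw [map_smul, h1, smul_add, smul_smul] }
  rintro _ ⟨x, hx, rfl⟩
  refine ((lieSpan_le (g := g') ?_ ?_) hx).2
  · exact fun e' he' => ⟨hGst e' he', hgen e' he'⟩
  · rintro x ⟨hx, a, ha, c, h1⟩ y ⟨hy, b, hb, d, h3⟩
    refine ⟨fun w hw => W.sub_mem (hx _ (hy w hw)) (hy _ (hx w hw)), a * b - b * a,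
      hid a (hle ha) b hb, 0, ?_⟩
    rw [map_sub, rst_mul hp hx hy, rst_mul hp hy hx, h1, h3, zero_smul, add_zero]
    simp only [mul_add, add_mul, smul_mul_assoc, mul_smul_comm, one_mul, mul_one, smul_add]
    rw [smul_comm c d]
    abel

end Pool.Agent.GHCQ
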